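import Pool.Agent.Helper6.MONO.Stmts

/-!
# The first values of `R-bar`
-/

set_option autoImplicit false

noncomputable section

namespace Pool.Agent.Helper6.MONO

theorem rbf_eq (M m : ℕ) (x : ℝ) (hx : x = Real.pi / M / 2) :
    Rb M m = Real.sin (2 * x) / Real.cos (2 * x) * (Real.cos (m * x) / Real.sin (m * x)) := by
  unfold Rb
  have h1 : Real.pi / M = 2 * x := by rw [hx]; ring
  have h2 : (m : ℝ) * (2 * x) / 2 = m * x := by ring
  rw [h1, h2, Real.tan_eq_sin_div_cos]

theorem rbf_c5 (x : ℝ) : Real.cos (5 * x) =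
    Real.cos x * (4 * Real.cos (2 * x) ^ 2 - 2 * Real.cos (2 * x) - 1) := by
  have h : Real.cos (5 * x) = Real.cos (3 * x + 2 * x) := by ring_nf
  have hs := Real.sin_sq_add_cos_sq x
  rw [h, Real.cos_add, Real.cos_three_mul, Real.sin_three_mul, Real.cos_two_mul, Real.sin_two_mul]
  have h2 : Real.sin x ^ 2 = 1 - Real.cos x ^ 2 := by linarith
  have h4 : Real.sin x ^ 4 = (1 - Real.cos x ^ 2) ^ 2 := by rw [← h2]; ring
  ring_nf
  rw [h2, h4]
  ring

theorem rbf_s5 (x : ℝ) : Real.sin (5 * x) =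
    Real.sin x * (4 * Real.cos (2 * x) ^ 2 + 2 * Real.cos (2 * x) - 1) := by
  have h : Real.sin (5 * x) = Real.sin (3 * x + 2 * x) := by ring_nf
  have hs := Real.sin_sq_add_cos_sq x
  rw [h, Real.sin_add, Real.cos_three_mul, Real.sin_three_mul, Real.cos_two_mul, Real.sin_two_mul]
  have h2 : Real.sin x ^ 3 = Real.sin x * (1 - Real.cos x ^ 2) := by
    have : Real.sin x ^ 2 = 1 - Real.cos x ^ 2 := by linarith
    rw [← this]
    ring
  ring_nf
  rw [h2]
  ring

theorem st_RBF : ST_RBF := by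
  intro M hM
  have hM3 : (3 : ℝ) ≤ M := by exact_mod_cast hM
  have hM0 : (0 : ℝ) < M := by linarith
  have hpi := Real.pi_pos
  obtain ⟨x, hx⟩ : ∃ x, x = Real.pi / M / 2 := ⟨_, rfl⟩
  have h2x : Real.pi / M = 2 * x := by rw [hx]; ring
  have hx0 : 0 < x := by rw [hx]; positivity
  have hx3 : 2 * x ≤ Real.pi / 3 := by
    rw [← h2x]
    exact div_le_div_of_nonneg_left hpi.le (by norm_num) hM3
  have hc : 1 / 2 ≤ Real.cos (2 * x) := by
    rw [← Real.cos_pi_div_three]
    exact Real.cos_le_cos_of_nonneg_of_le_pi (by linarith) (by linarith) hx3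
  have hc0 : Real.cos (2 * x) ≠ 0 := by linarith
  have hs0 : Real.sin (2 * x) ≠ 0 :=
    (Real.sin_pos_of_pos_of_lt_pi (by linarith) (by linarith)).ne'
  have hsx : Real.sin x ≠ 0 :=
    (Real.sin_pos_of_pos_of_lt_pi (by linarith) (by linarith)).ne'
  have hK : Kp M = 2 * Real.cos (2 * x) := by unfold Kp; rw [h2x]
  have hcx : Real.cos x ^ 2 = (1 + Real.cos (2 * x)) / 2 := by
    rw [Real.cos_two_mul]
    ring
  have hsin2 : Real.sin (2 * x) = 2 * Real.sin x * Real.cos x := Real.sin_two_mul x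
  refine ⟨?_, ?_, ?_, ?_, ?_⟩
  · rw [rbf_eq M 2 x hx]
    push_cast
    field_simp
  · rw [rbf_eq M 3 x hx, hK]
    push_cast
    have e1 : Real.cos (3 * x) = Real.cos x * (2 * Real.cos (2 * x) - 1) := by
      rw [Real.cos_three_mul, Real.cos_two_mul]
      ring
    have e2 : Real.sin (3 * x) = Real.sin x * (2 * Real.cos (2 * x) + 1) := by
      rw [Real.sin_three_mul, Real.cos_two_mul]
      have : Real.sin x ^ 3 = Real.sin x * (1 - Real.cos x ^ 2) := by
        rw [← Real.sin_sq]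
        ring
      rw [this]
      ring
    rw [e1, e2, hsin2]
    have h1 : 2 * Real.cos (2 * x) + 1 ≠ 0 := by linarith
    have e3 : 2 * Real.sin x * Real.cos x / Real.cos (2 * x) *
        (Real.cos x * (2 * Real.cos (2 * x) - 1) / (Real.sin x * (2 * Real.cos (2 * x) + 1))) =
        2 * Real.cos x ^ 2 * (2 * Real.cos (2 * x) - 1) /
          (Real.cos (2 * x) * (2 * Real.cos (2 * x) + 1)) := by
      field_simp
    rw [e3, hcx]
    field_simp
    ring
  · rw [rbf_eq M 4 x hx, hK]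
    push_cast
    have e1 : Real.cos (4 * x) = 2 * Real.cos (2 * x) ^ 2 - 1 := by
      rw [← Real.cos_two_mul]
      ring_nf
    have e2 : Real.sin (4 * x) = 2 * Real.sin (2 * x) * Real.cos (2 * x) := by
      rw [← Real.sin_two_mul]
      ring_nf
    rw [e1, e2]
    field_simp
  · intro _
    rw [rbf_eq M 5 x hx, hK]
    push_cast
    rw [rbf_c5, rbf_s5, hsin2]
    have h1 : 4 * Real.cos (2 * x) ^ 2 + 2 * Real.cos (2 * x) - 1 ≠ 0 := by nlinarith
    have e3 : 2 * Real.sin x * Real.cos x / Real.cos (2 * x) *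
        (Real.cos x * (4 * Real.cos (2 * x) ^ 2 - 2 * Real.cos (2 * x) - 1) /
          (Real.sin x * (4 * Real.cos (2 * x) ^ 2 + 2 * Real.cos (2 * x) - 1))) =
        2 * Real.cos x ^ 2 * (4 * Real.cos (2 * x) ^ 2 - 2 * Real.cos (2 * x) - 1) /
          (Real.cos (2 * x) * (4 * Real.cos (2 * x) ^ 2 + 2 * Real.cos (2 * x) - 1)) := by
      field_simp
    have h2 : 2 * Real.cos (2 * x) * (2 * Real.cos (2 * x)) + 2 * Real.cos (2 * x) - 1 =
        4 * Real.cos (2 * x) ^ 2 + 2 * Real.cos (2 * x) - 1 := by ring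
    rw [e3, hcx, h2]
    generalize hd : 4 * Real.cos (2 * x) ^ 2 + 2 * Real.cos (2 * x) - 1 = d at h1 ⊢
    field_simp
    rw [← hd]
    ring
  · intro hM5
    rw [rbf_eq M 6 x hx, hK]
    push_cast
    have hM5' : (5 : ℝ) ≤ M := by exact_mod_cast hM5
    have hx5 : 2 * x ≤ Real.pi / 5 := by
      rw [← h2x]
      exact div_le_div_of_nonneg_left hpi.le (by norm_num) hM5'
    have hc' : 1 / 2 < Real.cos (2 * x) := by
      rw [← Real.cos_pi_div_three]
      exact Real.cos_lt_cos_of_nonneg_of_le_pi (by linarith) (by linarith) (by linarith)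
    have e1 : Real.cos (6 * x) = 4 * Real.cos (2 * x) ^ 3 - 3 * Real.cos (2 * x) := by
      rw [← Real.cos_three_mul]
      ring_nf
    have e2 : Real.sin (6 * x) = Real.sin (2 * x) * (4 * Real.cos (2 * x) ^ 2 - 1) := by
      have h6 : Real.sin (6 * x) = Real.sin (3 * (2 * x)) := by ring_nf
      rw [h6, Real.sin_three_mul]
      have : Real.sin (2 * x) ^ 3 = Real.sin (2 * x) * (1 - Real.cos (2 * x) ^ 2) := by
        rw [← Real.sin_sq]
        ring
      rw [this]
      ring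
    rw [e1, e2]
    have h1 : 4 * Real.cos (2 * x) ^ 2 - 1 ≠ 0 := by nlinarith
    have h2 : 2 * Real.cos (2 * x) * (2 * Real.cos (2 * x)) - 1 =
        4 * Real.cos (2 * x) ^ 2 - 1 := by ring
    rw [h2]
    generalize hd : 4 * Real.cos (2 * x) ^ 2 - 1 = d at h1 ⊢
    field_simp
    rw [← hd]
    ring

end Pool.Agent.Helper6.MONO
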